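import Pool.Agent.W2helper53.BC.Trace

/-!
# The final deduction (piece FIN of helper20's project BC)
-/

set_option autoImplicit false

namespace Pool.Agent.W2helper53.BC

open Set Metric MeasureTheory
open scoped ContDiff InnerProductSpace ENNReal MatrixOrder
open Pool.Agent.Q176.BR Pool.Agent.W2helper20.BC

variable {n : ℕ}

/-- the scaling factor -/
noncomputable def th (a b : E n →L[ℝ] E n →L[ℝ] ℝ) : ℝ :=
  √(((gram a)⁻¹ * gram b).trace / n)

theorem trace_pos (hn : 1 ≤ n) {a b : E n →L[ℝ] E n →L[ℝ] ℝ}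
    (ha : ∀ v w, a v w = a w v) (ha' : ∀ v, v ≠ 0 → 0 < a v v)
    (hb' : ∀ v, v ≠ 0 → 0 < b v v) : 0 < ((gram a)⁻¹ * gram b).trace := by
  obtain ⟨B, hB0, hB, haB⟩ := exists_act ha ha'
  have hBi : IsUnit B.det := IsUnit.mk0 _ hB0
  have e1 : ∀ i, b (act B⁻¹ (bs i)) (act B⁻¹ (bs i)) = (B⁻¹.transpose * gram b * B⁻¹) i i := by
    intro i
    have e2 : ∀ j, act B⁻¹ (bs i) j = B⁻¹ j i := by
      intro j
      rw [act_apply, bs]
      simp
    rw [form_eq_gram]
    simp only [e2, Matrix.mul_apply, Matrix.transpose_apply, Finset.sum_mul]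
    rw [Finset.sum_comm]
    exact Finset.sum_congr rfl fun j _ => Finset.sum_congr rfl fun k _ => by ring
  have h3 : ∑ i, b (act B⁻¹ (bs i)) (act B⁻¹ (bs i)) = ((gram a)⁻¹ * gram b).trace := by
    rw [Finset.sum_congr rfl fun i _ => e1 i, hB, Matrix.mul_inv_rev]
    change (B⁻¹.transpose * gram b * B⁻¹).trace = _
    rw [Matrix.trace_mul_comm, ← Matrix.mul_assoc, Matrix.transpose_nonsing_inv]
  rw [← h3]
  refine Finset.sum_pos (fun i _ => hb' _ fun h => ?_) ⟨⟨0, hn⟩, Finset.mem_univ _⟩
  have h4 : act B (act B⁻¹ (bs i)) = bs i := by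
    rw [act_act, Matrix.mul_nonsing_inv _ hBi, act_one]
  rw [h, map_zero] at h4
  have h5 : (bs i : E n) i = 1 := by simp [bs]
  rw [← h4] at h5
  simp at h5

theorem th_pos (hn : 1 ≤ n) {a b : E n →L[ℝ] E n →L[ℝ] ℝ}
    (ha : ∀ v w, a v w = a w v) (ha' : ∀ v, v ≠ 0 → 0 < a v v)
    (hb' : ∀ v, v ≠ 0 → 0 < b v v) : 0 < th a b := by
  have h1 : (0 : ℝ) < n := by exact_mod_cast hn
  exact Real.sqrt_pos.2 (div_pos (trace_pos hn ha ha' hb') h1)

theorem th_sq (hn : 1 ≤ n) {a b : E n →L[ℝ] E n →L[ℝ] ℝ}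
    (ha : ∀ v w, a v w = a w v) (ha' : ∀ v, v ≠ 0 → 0 < a v v)
    (hb' : ∀ v, v ≠ 0 → 0 < b v v) : ((gram a)⁻¹ * gram b).trace = n * th a b ^ 2 := by
  have h1 : (0 : ℝ) < n := by exact_mod_cast hn
  rw [th, Real.sq_sqrt (div_pos (trace_pos hn ha ha' hb') h1).le]
  field_simp

/-- a form is determined by the quadratic form -/
theorem form_ext {a b : E n →L[ℝ] E n →L[ℝ] ℝ} (ha : ∀ v w, a v w = a w v)
    (hb : ∀ v w, b v w = b w v) {c : ℝ} (h : ∀ v, b v v = c * a v v) (v w : E n) :
    b v w = c * a v w := by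
  have h1 := h (v + w)
  simp only [map_add, add_apply] at h1
  rw [ha w v, hb w v, h v, h w] at h1
  linarith

theorem pointwise (hn : 1 ≤ n) {C : ℝ} (hC : 0 < C)
    (hT : ∀ a b : E n →L[ℝ] E n →L[ℝ] ℝ,
      (∀ v w, a v w = a w v) → (∀ v, v ≠ 0 → 0 < a v v) → (∀ v w, b v w = b w v) →
      volume {v : E n | a v v ≤ 1} < ⊤ ∧ IntegrableOn (fun v => b v v) {v : E n | a v v ≤ 1} ∧
      ∫ v in {v : E n | a v v ≤ 1}, b v v = C / √(gram a).det * ((gram a)⁻¹ * gram b).trace)
    {a b : E n →L[ℝ] E n →L[ℝ] ℝ}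
    (ha : ∀ v w, a v w = a w v) (ha' : ∀ v, v ≠ 0 → 0 < a v v)
    (hb : ∀ v w, b v w = b w v) (hb' : ∀ v, v ≠ 0 → 0 < b v v) :
    (∫⁻ v in {v : E n | a v v ≤ 1}, ENNReal.ofReal (a v v)) =
      ENNReal.ofReal (C * n / √(gram a).det) ∧
    ∃ J : ℝ, 0 ≤ J ∧
      (∫⁻ v in {v : E n | a v v ≤ 1}, ENNReal.ofReal (√(a v v) * √(b v v))) =
        ENNReal.ofReal J ∧
      J ≤ C * n * th a b / √(gram a).det ∧
      (J = C * n * th a b / √(gram a).det → ∀ v w, b v w = th a b ^ 2 * a v w) := by
  have ha0 : ∀ v, 0 ≤ a v v := fun v => by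
    by_cases h : v = 0
    · simp [h]
    · exact (ha' v h).le
  have hb0 : ∀ v, 0 ≤ b v v := fun v => by
    by_cases h : v = 0
    · simp [h]
    · exact (hb' v h).le
  have hdet : 0 < √(gram a).det := Real.sqrt_pos.2 (gram_posDef ha ha').det_pos
  have hθ := th_pos hn ha ha' hb'
  have hac : Continuous fun v : E n => a v v := by fun_prop
  have hbc : Continuous fun v : E n => b v v := by fun_prop
  have hsa : Continuous fun v : E n => √(a v v) := hac.sqrt
  have hsb : Continuous fun v : E n => √(b v v) := hbc.sqrt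
  obtain ⟨-, hia, hIa⟩ := hT a a ha ha' ha
  obtain ⟨-, hib, hIb⟩ := hT a b ha ha' hb
  have hmeas : MeasurableSet {v : E n | a v v ≤ 1} :=
    (isClosed_le hac continuous_const).measurableSet
  rw [Matrix.nonsing_inv_mul _ (IsUnit.mk0 _ (gram_posDef ha ha').det_pos.ne'),
    Matrix.trace_one, Fintype.card_fin] at hIa
  rw [th_sq hn ha ha' hb'] at hIb
  -- integrability
  have hiab : IntegrableOn (fun v : E n => √(a v v) * √(b v v)) {v : E n | a v v ≤ 1} := by
    refine Integrable.mono' (hia.add hib) (hsa.mul hsb).aestronglyMeasurable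
      (Filter.Eventually.of_forall fun v => ?_)
    rw [Real.norm_of_nonneg (by positivity)]
    simp only [Pi.add_apply]
    have h1 := Real.sq_sqrt (ha0 v)
    have h2 := Real.sq_sqrt (hb0 v)
    nlinarith [sq_nonneg (√(a v v) - √(b v v)), sq_nonneg (√(a v v)), sq_nonneg (√(b v v))]
  set θ := th a b with hθdef
  -- the deficit
  have hid : ∀ v : E n, (√(b v v) - θ * √(a v v)) ^ 2 =
      b v v + θ ^ 2 * a v v - 2 * θ * (√(a v v) * √(b v v)) := fun v => by
    have h1 := Real.sq_sqrt (ha0 v)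
    have h2 := Real.sq_sqrt (hb0 v)
    calc (√(b v v) - θ * √(a v v)) ^ 2 = √(b v v) ^ 2 + θ ^ 2 * √(a v v) ^ 2 -
          2 * θ * (√(a v v) * √(b v v)) := by ring
      _ = _ := by rw [h1, h2]
  have hiD : IntegrableOn (fun v : E n => (√(b v v) - θ * √(a v v)) ^ 2)
      {v : E n | a v v ≤ 1} := by
    simp only [hid]
    exact (hib.add (hia.const_mul _)).sub (hiab.const_mul _)
  have hE : ∫ v in {v : E n | a v v ≤ 1}, (√(b v v) - θ * √(a v v)) ^ 2 =
      2 * θ * (C * n * θ / √(gram a).det -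
        ∫ v in {v : E n | a v v ≤ 1}, √(a v v) * √(b v v)) := by
    simp only [hid]
    have e1 : ∫ v in {v : E n | a v v ≤ 1},
        (b v v + θ ^ 2 * a v v - 2 * θ * (√(a v v) * √(b v v))) =
        (∫ v in {v : E n | a v v ≤ 1}, (b v v + θ ^ 2 * a v v)) -
        ∫ v in {v : E n | a v v ≤ 1}, 2 * θ * (√(a v v) * √(b v v)) :=
      integral_sub (hib.add (hia.const_mul _)) (hiab.const_mul _)
    have e2 : ∫ v in {v : E n | a v v ≤ 1}, (b v v + θ ^ 2 * a v v) =
        (∫ v in {v : E n | a v v ≤ 1}, b v v) + ∫ v in {v : E n | a v v ≤ 1}, θ ^ 2 * a v v :=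
      integral_add hib (hia.const_mul _)
    rw [e1, e2, integral_const_mul, integral_const_mul, hIa, hIb]
    field_simp
    ring
  have hE0 : 0 ≤ ∫ v in {v : E n | a v v ≤ 1}, (√(b v v) - θ * √(a v v)) ^ 2 :=
    integral_nonneg fun v => sq_nonneg _
  refine ⟨?_, ∫ v in {v : E n | a v v ≤ 1}, √(a v v) * √(b v v),
    integral_nonneg fun v => by positivity, ?_, ?_, ?_⟩
  · rw [← ofReal_integral_eq_lintegral_ofReal hia (Filter.Eventually.of_forall fun v => ha0 v),
      hIa]
    congr 1
    ring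
  · exact (ofReal_integral_eq_lintegral_ofReal hiab
      (Filter.Eventually.of_forall fun v => by positivity)).symm
  · rw [hE] at hE0
    have := nonneg_of_mul_nonneg_right hE0 (by positivity : (0 : ℝ) < 2 * θ)
    linarith
  · intro hJ
    rw [hJ, sub_self, mul_zero] at hE
    have h1 := (integral_eq_zero_iff_of_nonneg_ae
      (Filter.Eventually.of_forall fun v : E n => sq_nonneg (√(b v v) - θ * √(a v v))) hiD).1 hE
    have hop : IsOpen {v : E n | a v v < 1} := isOpen_lt hac continuous_const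
    have hsub : {v : E n | a v v < 1} ⊆ {v : E n | a v v ≤ 1} := fun v (hv : a v v < 1) =>
      show a v v ≤ 1 from hv.le
    have h2 := ae_restrict_of_ae_restrict_of_subset hsub h1
    have h3 : EqOn (fun v : E n => (√(b v v) - θ * √(a v v)) ^ 2) 0 {v : E n | a v v < 1} :=
      Measure.eqOn_open_of_ae_eq h2 hop ((hsb.sub (hsa.const_mul θ)).pow 2).continuousOn
        continuousOn_const
    have h4 : ∀ v, b v v = θ ^ 2 * a v v := by
      intro v
      set s := a v v with hs
      have hs0 : 0 ≤ s := ha0 v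
      set t : ℝ := 1 / (1 + s) with ht
      have ht0 : 0 < t := by positivity
      have h5 : a (t • v) (t • v) = t ^ 2 * s := by
        simp only [map_smul, smul_apply, smul_eq_mul, hs]
        ring
      have h6 : b (t • v) (t • v) = t ^ 2 * b v v := by
        simp only [map_smul, smul_apply, smul_eq_mul]
        ring
      have h7 : t ^ 2 * s < 1 := by
        rw [ht, div_pow, one_pow, one_div, inv_mul_eq_div, div_lt_one (by positivity)]
        nlinarith
      have h8 := h3 (show (t • v) ∈ {v : E n | a v v < 1} by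
        rw [mem_setOf_eq, h5]; exact h7)
      simp only [Pi.zero_apply] at h8
      have h9 : √(b (t • v) (t • v)) = θ * √(a (t • v) (t • v)) := by
        have := pow_eq_zero_iff (two_ne_zero) |>.1 h8
        linarith
      have h10 : b (t • v) (t • v) = θ ^ 2 * a (t • v) (t • v) := by
        rw [← Real.sq_sqrt (hb0 (t • v)), h9, mul_pow, Real.sq_sqrt (ha0 _)]
      rw [h5, h6] at h10
      have h11 : t ^ 2 * (b v v - θ ^ 2 * s) = 0 := by linarith
      rcases mul_eq_zero.1 h11 with h | h
      · exact absurd h (by positivity)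
      · linarith
    exact form_ext ha hb h4

theorem gram_smul' {a b : E n →L[ℝ] E n →L[ℝ] ℝ} {c : ℝ} (h : ∀ v w, b v w = c * a v w) :
    gram b = c • gram a := by
  ext i j
  rw [Matrix.smul_apply, gram_apply, gram_apply, h, smul_eq_mul]

theorem continuous_det {g : Fld n} (hg : IsMetric g) : Continuous fun x => (gram (g x)).det := by
  have h : Continuous fun x => gram (g x) := by
    refine continuous_matrix fun i j => ?_
    simp only [gram_apply]
    exact (hg.smooth.continuous.clm_apply continuous_const).clm_apply continuous_const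
  exact h.matrix_det

theorem p_FIN : P_FIN := by
  intro hTr n g g' hn hg hg' H1 H2 hcond
  have hn1 : 1 ≤ n := by omega
  obtain ⟨C, hC, hT⟩ := hTr n hn1
  have hC0 : (0 : ℝ) < C * n := mul_pos hC (by exact_mod_cast hn1)
  choose Q1 J hJ0 hJ1 hJ2 hJ3 using fun x =>
    pointwise hn1 hC hT (hg.symm x) (hg.pos x) (hg'.symm x) (hg'.pos x)
  choose Q1' J' hJ0' hJ1' hJ2' hJ3' using fun x =>
    pointwise hn1 hC hT (hg'.symm x) (hg'.pos x) (hg.symm x) (hg.pos x)
  have hd : ∀ x, 0 < (gram (g x)).det := hg.det_pos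
  have hd' : ∀ x, 0 < (gram (g' x)).det := hg'.det_pos
  have hr : ∀ x, 0 < √(gram (g x)).det := fun x => Real.sqrt_pos.2 (hd x)
  have hr' : ∀ x, 0 < √(gram (g' x)).det := fun x => Real.sqrt_pos.2 (hd' x)
  have hrr : ∀ x, (gram (g x)).det = √(gram (g x)).det * √(gram (g x)).det := fun x =>
    (Real.mul_self_sqrt (hd x).le).symm
  have hrr' : ∀ x, (gram (g' x)).det = √(gram (g' x)).det * √(gram (g' x)).det := fun x =>
    (Real.mul_self_sqrt (hd' x).le).symm
  -- the condition
  have hcond' : ∀ x ∈ M n, √(gram (g x)).det * th (g x) (g' x) +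
      √(gram (g' x)).det * th (g' x) (g x) ≤ √(gram (g x)).det + √(gram (g' x)).det := by
    intro x hx
    have h1 := hcond x hx
    unfold Cond at h1
    rw [Real.sqrt_div (hd' x).le] at h1
    have h2 := mul_le_mul_of_nonneg_left h1 (hr x).le
    have h3 : √(gram (g x)).det * (√(((gram (g x))⁻¹ * gram (g' x)).trace / n) - 1 +
        (√(((gram (g' x))⁻¹ * gram (g x)).trace / n) - 1) *
          (√(gram (g' x)).det / √(gram (g x)).det)) =
        √(gram (g x)).det * (th (g x) (g' x) - 1) +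
          √(gram (g' x)).det * (th (g' x) (g x) - 1) := by
      have := (hr x).ne'
      unfold th
      field_simp
    rw [h3, mul_zero] at h2
    linarith
  -- the inner integrals
  have K1 : ∀ x, (∫⁻ v in {v | g x v v ≤ 1}, ENNReal.ofReal (g x v v) *
      ENNReal.ofReal (rho g x)) = ENNReal.ofReal (C * n * √(gram (g x)).det) := by
    intro x
    rw [lintegral_mul_const' _ _ ENNReal.ofReal_ne_top, Q1 x, rho,
      ← ENNReal.ofReal_mul (by positivity)]
    congr 1
    have := (hr x).ne'
    rw [div_mul_eq_mul_div, div_eq_iff this]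
    nth_rw 1 [hrr x]
    ring
  have K1' : ∀ x, (∫⁻ v in {v | g' x v v ≤ 1}, ENNReal.ofReal (g' x v v) *
      ENNReal.ofReal (rho g' x)) = ENNReal.ofReal (C * n * √(gram (g' x)).det) := by
    intro x
    rw [lintegral_mul_const' _ _ ENNReal.ofReal_ne_top, Q1' x, rho,
      ← ENNReal.ofReal_mul (by positivity)]
    congr 1
    have := (hr' x).ne'
    rw [div_mul_eq_mul_div, div_eq_iff this]
    nth_rw 1 [hrr' x]
    ring
  have K2 : ∀ x, (∫⁻ v in {v | g x v v ≤ 1}, ENNReal.ofReal (√(g x v v) * √(g' x v v)) *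
      ENNReal.ofReal (rho g x)) = ENNReal.ofReal (J x * (gram (g x)).det) := by
    intro x
    rw [lintegral_mul_const' _ _ ENNReal.ofReal_ne_top, hJ1 x, rho,
      ← ENNReal.ofReal_mul (hJ0 x)]
  have K2' : ∀ x, (∫⁻ v in {v | g' x v v ≤ 1}, ENNReal.ofReal (√(g' x v v) * √(g x v v)) *
      ENNReal.ofReal (rho g' x)) = ENNReal.ofReal (J' x * (gram (g' x)).det) := by
    intro x
    rw [lintegral_mul_const' _ _ ENNReal.ofReal_ne_top, hJ1' x, rho,
      ← ENNReal.ofReal_mul (hJ0' x)]
  simp only [K1, K2] at H1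
  simp only [K1', K2'] at H2
  have B1 : ∀ x, J x * (gram (g x)).det ≤ C * n * (√(gram (g x)).det * th (g x) (g' x)) := by
    intro x
    have h1 := mul_le_mul_of_nonneg_right (hJ2 x) (hd x).le
    refine h1.trans (le_of_eq ?_)
    rw [div_mul_eq_mul_div, div_eq_iff (hr x).ne']
    nth_rw 1 [hrr x]
    ring
  have B1' : ∀ x, J' x * (gram (g' x)).det ≤
      C * n * (√(gram (g' x)).det * th (g' x) (g x)) := by
    intro x
    have h1 := mul_le_mul_of_nonneg_right (hJ2' x) (hd' x).le
    refine h1.trans (le_of_eq ?_)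
    rw [div_mul_eq_mul_div, div_eq_iff (hr' x).ne']
    nth_rw 1 [hrr' x]
    ring
  -- continuity
  have hc1 : Continuous fun x => C * n * √(gram (g x)).det :=
    continuous_const.mul (continuous_det hg).sqrt
  have hc2 : Continuous fun x => C * n * √(gram (g' x)).det :=
    continuous_const.mul (continuous_det hg').sqrt
  set f : E n → ℝ≥0∞ := fun x => ENNReal.ofReal (J x * (gram (g x)).det) +
    ENNReal.ofReal (J' x * (gram (g' x)).det) with hf
  set h : E n → ℝ≥0∞ := fun x => ENNReal.ofReal (C * n * √(gram (g x)).det) +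
    ENNReal.ofReal (C * n * √(gram (g' x)).det) with hh
  have hhm : Measurable h := (hc1.measurable.ennreal_ofReal).add (hc2.measurable.ennreal_ofReal)
  have hfin : ∀ φ : E n → ℝ, Continuous φ →
      ∫⁻ x in ball (0 : E n) 1, ENNReal.ofReal (φ x) < ⊤ := fun φ hφ =>
    ((hφ.continuousOn.integrableOn_compact (isCompact_closedBall (0 : E n) 1)).mono_set
      ball_subset_closedBall).lintegral_lt_top
  have hle : ∀ x ∈ ball (0 : E n) 1, f x ≤ h x := by
    intro x hx
    simp only [hf, hh]
    rw [← ENNReal.ofReal_add (mul_nonneg (hJ0 x) (hd x).le) (mul_nonneg (hJ0' x) (hd' x).le),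
      ← ENNReal.ofReal_add (by positivity) (by positivity)]
    refine ENNReal.ofReal_le_ofReal ?_
    have h1 := hcond' x (ball_subset_closedBall hx)
    have h2 := mul_le_mul_of_nonneg_left h1 hC0.le
    have h3 := B1 x
    have h4 := B1' x
    nlinarith
  have hle' : f ≤ᵐ[volume.restrict (ball (0 : E n) 1)] h :=
    (ae_restrict_iff' measurableSet_ball).2 (Filter.Eventually.of_forall hle)
  have hint : ∫⁻ x in ball (0 : E n) 1, h x ≤ ∫⁻ x in ball (0 : E n) 1, f x := by
    calc ∫⁻ x in ball (0 : E n) 1, h x = (∫⁻ x in ball (0 : E n) 1,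
          ENNReal.ofReal (C * n * √(gram (g x)).det)) +
          ∫⁻ x in ball (0 : E n) 1, ENNReal.ofReal (C * n * √(gram (g' x)).det) :=
        lintegral_add_left hc1.measurable.ennreal_ofReal _
      _ ≤ _ := add_le_add H1 H2
      _ ≤ ∫⁻ x in ball (0 : E n) 1, f x := le_lintegral_add _ _
  have hhfin : ∫⁻ x in ball (0 : E n) 1, h x < ⊤ := by
    simp only [hh]
    rw [lintegral_add_left hc1.measurable.ennreal_ofReal]
    exact ENNReal.add_lt_top.2 ⟨hfin _ hc1, hfin _ hc2⟩
  have hffin : ∫⁻ x in ball (0 : E n) 1, f x ≠ ⊤ :=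
    ((lintegral_mono_ae hle').trans_lt hhfin).ne
  have hae := ae_eq_of_ae_le_of_lintegral_le hle' hffin hhm.aemeasurable hint
  -- the forms agree
  have hag : g' =ᵐ[volume.restrict (ball (0 : E n) 1)] g := by
    filter_upwards [hae, ae_restrict_mem measurableSet_ball] with x hx hxb
    simp only [hf, hh] at hx
    rw [← ENNReal.ofReal_add (mul_nonneg (hJ0 x) (hd x).le) (mul_nonneg (hJ0' x) (hd' x).le),
      ← ENNReal.ofReal_add (by positivity) (by positivity),
      ENNReal.ofReal_eq_ofReal_iff (add_nonneg (mul_nonneg (hJ0 x) (hd x).le)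
        (mul_nonneg (hJ0' x) (hd' x).le)) (by positivity)] at hx
    have h1 := hcond' x (ball_subset_closedBall hxb)
    have h2 := mul_le_mul_of_nonneg_left h1 hC0.le
    have h3 := B1 x
    have h4 := B1' x
    have h5 : J x * (gram (g x)).det = C * n * (√(gram (g x)).det * th (g x) (g' x)) := by
      nlinarith
    have h6 : √(gram (g x)).det * th (g x) (g' x) +
        √(gram (g' x)).det * th (g' x) (g x) = √(gram (g x)).det + √(gram (g' x)).det := by
      have : C * n * (√(gram (g x)).det * th (g x) (g' x) +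
        √(gram (g' x)).det * th (g' x) (g x)) =
        C * n * (√(gram (g x)).det + √(gram (g' x)).det) := by nlinarith
      exact mul_left_cancel₀ hC0.ne' this
    have h7 : J x = C * n * th (g x) (g' x) / √(gram (g x)).det := by
      rw [eq_div_iff (hr x).ne']
      have h8 : √(gram (g x)).det * (J x * √(gram (g x)).det) =
          √(gram (g x)).det * (C * n * th (g x) (g' x)) := by
        calc √(gram (g x)).det * (J x * √(gram (g x)).det)
            = J x * (√(gram (g x)).det * √(gram (g x)).det) := by ring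
          _ = J x * (gram (g x)).det := by rw [← hrr x]
          _ = C * n * (√(gram (g x)).det * th (g x) (g' x)) := h5
          _ = _ := by ring
      exact mul_left_cancel₀ (hr x).ne' h8
    have h8 := hJ3 x h7
    have hθ := th_pos hn1 (hg.symm x) (hg.pos x) (hg'.pos x)
    obtain ⟨θ, hθdef⟩ : ∃ θ, θ = th (g x) (g' x) := ⟨_, rfl⟩
    rw [← hθdef] at h6 h8 hθ
    have h9 : gram (g' x) = θ ^ 2 • gram (g x) := gram_smul' h8
    have hU : IsUnit (gram (g x)).det := IsUnit.mk0 _ (hd x).ne'
    have h10 : th (g' x) (g x) = 1 / θ := by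
      have e1 : (gram (g' x))⁻¹ = (θ ^ 2)⁻¹ • (gram (g x))⁻¹ := by
        refine Matrix.inv_eq_left_inv ?_
        rw [h9, Matrix.smul_mul, Matrix.mul_smul, Matrix.nonsing_inv_mul _ hU, smul_smul,
          inv_mul_cancel₀ (by positivity), one_smul]
      rw [th, e1, Matrix.smul_mul, Matrix.nonsing_inv_mul _ hU, Matrix.trace_smul,
        Matrix.trace_one, Fintype.card_fin, smul_eq_mul]
      have hn0 : (n : ℝ) ≠ 0 := by positivity
      rw [mul_div_assoc, div_self hn0, mul_one, Real.sqrt_inv, Real.sqrt_sq hθ.le, one_div]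
    have h11 : √(gram (g' x)).det = θ ^ n * √(gram (g x)).det := by
      rw [h9, Matrix.det_smul, Fintype.card_fin, ← pow_mul, mul_comm 2 n, pow_mul,
        Real.sqrt_mul (by positivity), Real.sqrt_sq (by positivity)]
    rw [h10, h11] at h6
    have h12 : √(gram (g x)).det * ((θ - 1) * (1 - θ ^ (n - 1))) = 0 := by
      obtain ⟨m, rfl⟩ : ∃ m, n = m + 1 := ⟨n - 1, by omega⟩
      rw [Nat.add_sub_cancel]
      have e2 : θ ^ (m + 1) * √(gram (g x)).det * (1 / θ) = θ ^ m * √(gram (g x)).det := by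
        rw [pow_succ]
        field_simp
      rw [e2] at h6
      rw [pow_succ] at h6
      linear_combination h6
    have h13 : θ = 1 := by
      rcases mul_eq_zero.1 h12 with h | h
      · exact absurd h (hr x).ne'
      · rcases mul_eq_zero.1 h with h | h
        · linarith
        · have : θ ^ (n - 1) = 1 := by linarith
          exact (pow_eq_one_iff_of_nonneg hθ.le (by omega)).1 this
    ext v w
    rw [h8 v w, h13]
    ring
  have hop := Measure.eqOn_open_of_ae_eq hag isOpen_ball hg'.smooth.continuous.continuousOn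
    hg.smooth.continuous.continuousOn
  have hcl := hop.closure hg'.smooth.continuous hg.smooth.continuous
  rw [closure_ball _ one_ne_zero] at hcl
  exact hcl

end Pool.Agent.W2helper53.BC
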