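import Pool.Agent.W2helper20.BC.Stm

/-!
# Integrals of quadratic forms over ellipsoids (piece TRACE of helper20's project BC)
-/

set_option autoImplicit false

namespace Pool.Agent.W2helper53.BC

open Set Metric MeasureTheory
open scoped ContDiff InnerProductSpace ENNReal MatrixOrder
open Pool.Agent.Q176.BR Pool.Agent.W2helper20.BC

variable {n : ℕ}

/-- the ball is invariant -/
theorem integral_ball_comp (e : E n ≃ₗᵢ[ℝ] E n) (f : E n → ℝ) :
    ∫ u in closedBall (0 : E n) 1, f (e u) = ∫ u in closedBall (0 : E n) 1, f u := by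
  have h := e.measurePreserving.setIntegral_preimage_emb e.toHomeomorph.measurableEmbedding f
    (closedBall 0 1)
  rw [e.preimage_closedBall, map_zero] at h
  exact h

/-- the reflection of one coordinate -/
noncomputable def refl (i : Fin n) : E n ≃ₗᵢ[ℝ] E n :=
  LinearIsometryEquiv.piLpCongrRight 2
    (fun j => if j = i then LinearIsometryEquiv.neg ℝ (E := ℝ) else LinearIsometryEquiv.refl ℝ ℝ)

theorem refl_apply_same (i : Fin n) (u : E n) : refl i u i = - u i := by
  simp [refl]

theorem refl_apply_ne {i j : Fin n} (h : j ≠ i) (u : E n) : refl i u j = u j := by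
  simp [refl, h]

theorem moment_off {i j : Fin n} (h : j ≠ i) :
    ∫ u in closedBall (0 : E n) 1, u i * u j = 0 := by
  have h1 := integral_ball_comp (refl i) (fun u : E n => u i * u j)
  simp only [refl_apply_same, refl_apply_ne h, neg_mul] at h1
  rw [integral_neg] at h1
  linarith

theorem moment_diag (i j : Fin n) :
    ∫ u in closedBall (0 : E n) 1, u i * u i = ∫ u in closedBall (0 : E n) 1, u j * u j := by
  have h1 := integral_ball_comp (LinearIsometryEquiv.piLpCongrLeft 2 ℝ ℝ (Equiv.swap i j))
    (fun u : E n => u i * u i)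
  rw [← h1]
  refine integral_congr_ae (Filter.Eventually.of_forall fun u => ?_)
  simp [LinearIsometryEquiv.piLpCongrLeft_apply]

theorem moment_pos (i : Fin n) : 0 < ∫ u in closedBall (0 : E n) 1, u i * u i := by
  have hc : Continuous fun u : E n => u i * u i := by fun_prop
  have hint : IntegrableOn (fun u : E n => u i * u i) (closedBall (0 : E n) 1) :=
    hc.continuousOn.integrableOn_compact (isCompact_closedBall 0 1)
  rw [setIntegral_pos_iff_support_of_nonneg_ae
    (Filter.Eventually.of_forall fun u => mul_self_nonneg _) hint]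
  have hop : IsOpen ((Function.support fun u : E n => u i * u i) ∩ ball (0 : E n) 1) :=
    hc.isOpen_support.inter isOpen_ball
  refine lt_of_lt_of_le (hop.measure_pos volume ?_)
    (measure_mono (inter_subset_inter_right _ ball_subset_closedBall))
  refine ⟨(2⁻¹ : ℝ) • bs i, ?_, ?_⟩
  · simp [bs]
  · rw [mem_ball_zero_iff, norm_smul]
    simp only [bs, EuclideanSpace.norm_single]
    norm_num

theorem integral_form (c : E n →L[ℝ] E n →L[ℝ] ℝ) (i0 : Fin n) :
    ∫ u in closedBall (0 : E n) 1, c u u =
      (∫ u in closedBall (0 : E n) 1, u i0 * u i0) * ∑ i, c (bs i) (bs i) := by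
  have h1 : ∀ u : E n, c u u = ∑ i, ∑ j, u i * u j * c (bs i) (bs j) := fun u => by
    rw [form_eq_gram]
    rfl
  have h0 : ∫ u in closedBall (0 : E n) 1, c u u =
      ∫ u in closedBall (0 : E n) 1, ∑ i, ∑ j, u i * u j * c (bs i) (bs j) :=
    integral_congr_ae (Filter.Eventually.of_forall fun u => h1 u)
  rw [h0]
  have hint : ∀ i j : Fin n, Integrable (fun u : E n => u i * u j * c (bs i) (bs j))
      (volume.restrict (closedBall (0 : E n) 1)) := fun i j => by
    have hc : Continuous fun u : E n => u i * u j * c (bs i) (bs j) := by fun_prop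
    exact hc.continuousOn.integrableOn_compact (isCompact_closedBall 0 1)
  rw [integral_finsetSum _ (fun i _ => integrable_finsetSum _ (fun j _ => hint i j)),
    Finset.mul_sum]
  refine Finset.sum_congr rfl fun i _ => ?_
  rw [integral_finsetSum _ (fun j _ => hint i j), Finset.sum_eq_single i]
  · rw [integral_mul_const, moment_diag i i0]
  · intro j _ hj
    rw [integral_mul_const, moment_off hj, zero_mul]
  · simp

/-- the matrix acts on Euclidean space -/
noncomputable def act (B : Matrix (Fin n) (Fin n) ℝ) : E n →ₗ[ℝ] E n := Matrix.toLpLin 2 2 B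

theorem act_apply (B : Matrix (Fin n) (Fin n) ℝ) (v : E n) :
    act B v = WithLp.toLp 2 (B.mulVec v.ofLp) := rfl

theorem act_act (A B : Matrix (Fin n) (Fin n) ℝ) (v : E n) : act A (act B v) = act (A * B) v := by
  simp [act_apply, Matrix.mulVec_mulVec]

theorem act_one (v : E n) : act 1 v = v := by
  simp [act_apply]

theorem det_act (B : Matrix (Fin n) (Fin n) ℝ) : LinearMap.det (act B) = B.det := by
  rw [act, Matrix.toLpLin_eq_toLin, LinearMap.det_toLin]

theorem form_eq_dot (a : E n →L[ℝ] E n →L[ℝ] ℝ) (v w : E n) :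
    a v w = v.ofLp ⬝ᵥ ((gram a).mulVec w.ofLp) := by
  rw [form_eq_gram]
  simp only [dotProduct, Matrix.mulVec, Finset.mul_sum]
  exact Finset.sum_congr rfl fun i _ => Finset.sum_congr rfl fun j _ => by ring

theorem inner_eq_dot (v w : E n) : ⟪v, w⟫_ℝ = v.ofLp ⬝ᵥ w.ofLp := by
  rw [EuclideanSpace.inner_eq_star_dotProduct, star_trivial, dotProduct_comm]

theorem gram_posDef {a : E n →L[ℝ] E n →L[ℝ] ℝ} (hsymm : ∀ v w, a v w = a w v)
    (hpos : ∀ v, v ≠ 0 → 0 < a v v) : (gram a).PosDef := by
  refine Matrix.PosDef.of_dotProduct_mulVec_pos ?_ (fun v hv => ?_)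
  · ext i j
    simp only [Matrix.conjTranspose_apply, star_trivial, gram_apply]
    exact hsymm _ _
  · have h1 : (WithLp.toLp 2 v : E n) ≠ 0 := by
      intro h
      apply hv
      have := congrArg WithLp.ofLp h
      simpa using this
    have h2 := hpos _ h1
    rw [form_eq_dot] at h2
    simpa using h2

/-- A positive definite form is the pull-back of the inner product. -/
theorem exists_act {a : E n →L[ℝ] E n →L[ℝ] ℝ} (hsymm : ∀ v w, a v w = a w v)
    (hpos : ∀ v, v ≠ 0 → 0 < a v v) : ∃ B : Matrix (Fin n) (Fin n) ℝ, B.det ≠ 0 ∧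
      gram a = B.transpose * B ∧ ∀ v w, a v w = ⟪act B v, act B w⟫_ℝ := by
  obtain ⟨B, hBu, hB⟩ := CStarAlgebra.isStrictlyPositive_iff_eq_star_mul_self.mp
    (gram_posDef hsymm hpos).isStrictlyPositive
  rw [Matrix.star_eq_conjTranspose, Matrix.conjTranspose_eq_transpose_of_trivial] at hB
  refine ⟨B, ((Matrix.isUnit_iff_isUnit_det B).1 hBu).ne_zero, hB, fun v w => ?_⟩
  rw [form_eq_dot, hB, ← Matrix.mulVec_mulVec, Matrix.dotProduct_mulVec, Matrix.vecMul_transpose,
    inner_eq_dot]
  rfl

theorem p_TRACE : P_TRACE := by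
  classical
  intro n hn
  have i0 : Fin n := ⟨0, hn⟩
  refine ⟨∫ u in closedBall (0 : E n) 1, u i0 * u i0, moment_pos i0, fun a b hsymm hpos hb => ?_⟩
  obtain ⟨B, hB0, hB, haB⟩ := exists_act hsymm hpos
  have hdet : (gram a).det = B.det ^ 2 := by
    rw [hB, Matrix.det_mul, Matrix.det_transpose, sq]
  have hsq : √(gram a).det = |B.det| := by rw [hdet, Real.sqrt_sq_eq_abs]
  have hBi : IsUnit B.det := IsUnit.mk0 _ hB0
  let T : E n →L[ℝ] E n := LinearMap.toContinuousLinearMap (act B⁻¹)
  have hT : ∀ v, T (act B v) = v := fun v => by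
    change act B⁻¹ (act B v) = v
    rw [act_act, Matrix.nonsing_inv_mul _ hBi, act_one]
  have hset : {v : E n | a v v ≤ 1} = act B ⁻¹' closedBall (0 : E n) 1 := by
    ext v
    rw [mem_setOf_eq, mem_preimage, mem_closedBall_zero_iff, haB, real_inner_self_eq_norm_sq]
    exact (sq_le_one_iff₀ (norm_nonneg _))
  have hcont : Continuous (act B : E n → E n) := LinearMap.continuous_of_finiteDimensional _
  have hcpt : IsCompact {v : E n | a v v ≤ 1} := by
    refine Metric.isCompact_of_isClosed_isBounded ?_ ?_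
    · rw [hset]
      exact isClosed_closedBall.preimage hcont
    · refine (isBounded_closedBall (x := (0 : E n)) (r := ‖T‖)).subset ?_
      intro v hv
      rw [hset, mem_preimage, mem_closedBall_zero_iff] at hv
      rw [mem_closedBall_zero_iff]
      calc ‖v‖ = ‖T (act B v)‖ := by rw [hT]
        _ ≤ ‖T‖ * ‖act B v‖ := T.le_opNorm _
        _ ≤ ‖T‖ * 1 := by gcongr
        _ = ‖T‖ := mul_one _
  have hbc : Continuous fun v : E n => b v v := by fun_prop
  refine ⟨hcpt.measure_lt_top, hbc.continuousOn.integrableOn_compact hcpt, ?_⟩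
  let c : E n →L[ℝ] E n →L[ℝ] ℝ := b.bilinearComp T T
  have hc : ∀ u w, c u w = b (T u) (T w) := fun u w => rfl
  have hcc : Continuous fun v : E n => c v v := by fun_prop
  have hdf : LinearMap.det (act B) ≠ 0 := by rwa [det_act]
  have hmap := Measure.map_linearMap_addHaar_eq_smul_addHaar (volume : Measure (E n)) hdf
  have h1 : ∫ v in {v : E n | a v v ≤ 1}, b v v =
      ∫ v in act B ⁻¹' closedBall (0 : E n) 1, c (act B v) (act B v) := by
    rw [hset]
    refine integral_congr_ae (Filter.Eventually.of_forall fun v => ?_)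
    simp only [hc, hT]
  have h2 : ∫ v in act B ⁻¹' closedBall (0 : E n) 1, c (act B v) (act B v) =
      |B.det|⁻¹ * ∫ u in closedBall (0 : E n) 1, c u u := by
    rw [← setIntegral_map measurableSet_closedBall hcc.aestronglyMeasurable
      hcont.measurable.aemeasurable, hmap, Measure.restrict_smul, integral_smul_measure,
      ENNReal.toReal_ofReal (abs_nonneg _), det_act, abs_inv, smul_eq_mul]
  have h3 : ∑ i, c (bs i) (bs i) = ((gram a)⁻¹ * gram b).trace := by
    have e1 : ∀ i, c (bs i) (bs i) = (B⁻¹.transpose * gram b * B⁻¹) i i := by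
      intro i
      have e2 : ∀ j, T (bs i) j = B⁻¹ j i := by
        intro j
        change act B⁻¹ (bs i) j = B⁻¹ j i
        rw [act_apply, bs]
        simp
      rw [hc, form_eq_gram]
      simp only [e2, Matrix.mul_apply, Matrix.transpose_apply, Finset.sum_mul]
      rw [Finset.sum_comm]
      exact Finset.sum_congr rfl fun j _ => Finset.sum_congr rfl fun k _ => by ring
    rw [Finset.sum_congr rfl fun i _ => e1 i, hB, Matrix.mul_inv_rev]
    change (B⁻¹.transpose * gram b * B⁻¹).trace = _
    rw [Matrix.trace_mul_comm, ← Matrix.mul_assoc, Matrix.transpose_nonsing_inv]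
  rw [h1, h2, integral_form c i0, h3, hsq]
  field_simp

end Pool.Agent.W2helper53.BC
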